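import Pool.Agent.Y354.DC3.Stm

/-!
Project DC3: symmetrisation of three vertices.
-/

set_option autoImplicit false

open Finset
open scoped Classical

namespace Pool.Agent.Y93.DC3

open Pool.Agent.Y354.DC3

theorem rot3 {V : Type} [Fintype V] (f : V → V → V → ℝ) :
    ∑ w, ∑ v, ∑ u, f w v u = ∑ w, ∑ v, ∑ u, f v u w := by
  have h1 : ∑ w, ∑ v, ∑ u, f v u w = ∑ v, ∑ w, ∑ u, f v u w := Finset.sum_comm
  rw [h1]
  refine Finset.sum_congr rfl fun v _ => ?_
  exact Finset.sum_comm

section

variable {V : Type} {N : V → V → V → Prop} {k : ℕ} {y : Fin k → V}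

/-- one term of the square -/
noncomputable def g (N : V → V → V → Prop) {k : ℕ} (y : Fin k → V) (w v u : V) : ℝ :=
  I (Al N y w) * (I (Al N y v ∧ Ad N y w v) * I (Al N y u ∧ Ad N y w u))

/-- one term of the right side -/
noncomputable def h (N : V → V → V → Prop) {k : ℕ} (y : Fin k → V) (w v u : V) : ℝ :=
  I (Al N y w) * (tw N y w v u : ℝ)

theorem I_nonneg (p : Prop) : 0 ≤ I p := by
  unfold I
  split_ifs
  · exact zero_le_one
  · exact le_rfl

theorem h_nonneg (w v u : V) : 0 ≤ h N y w v u :=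
  mul_nonneg (I_nonneg _) (Nat.cast_nonneg _)

theorem ad_symm (hN : Sy N) (v u : V) : Ad N y v u ↔ Ad N y u v := by
  constructor
  · rintro ⟨l, hl⟩
    exact ⟨l, hN.1 _ _ _ hl⟩
  · rintro ⟨l, hl⟩
    exact ⟨l, hN.1 _ _ _ hl⟩

theorem bad_excl (hN : Sy N) (w v u : V) (h1 : Bad N y w v u) (h2 : Bad N y v u w) : False := by
  obtain ⟨-, l, j, hlj, a1, a2, a3⟩ := h1
  obtain ⟨-, l', j', hlj', b1, b2, b3⟩ := h2
  have e1 : l = j' := (b2 l).1 ((a1 l).2 rfl)
  have e2 : j = j' := (b3 j).1 (hN.1 _ _ _ ((a2 j).2 rfl))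
  exact hlj (e1.trans e2.symm)

theorem g_zero1 (w v u : V) (hw : ¬ Al N y w) : g N y w v u = 0 := by
  simp [g, I, hw]

theorem g_zero2 (w v u : V) (hw : ¬ Al N y v) : g N y w v u = 0 := by
  simp [g, I, hw]

theorem g_zero3 (w v u : V) (hw : ¬ Al N y u) : g N y w v u = 0 := by
  simp [g, I, hw]

theorem pw (hN : Sy N) (w v u : V) :
    5 / 3 * (g N y w v u + g N y v u w + g N y u w v) ≤
      h N y w v u + h N y v u w + h N y u w v := by
  have n1 := h_nonneg (N := N) (y := y) w v u
  have n2 := h_nonneg (N := N) (y := y) v u w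
  have n3 := h_nonneg (N := N) (y := y) u w v
  by_cases a1 : Al N y w
  swap
  · rw [g_zero1 w v u a1, g_zero3 v u w a1, g_zero2 u w v a1]
    linarith
  by_cases a2 : Al N y v
  swap
  · rw [g_zero2 w v u a2, g_zero1 v u w a2, g_zero3 u w v a2]
    linarith
  by_cases a3 : Al N y u
  swap
  · rw [g_zero3 w v u a3, g_zero2 v u w a3, g_zero1 u w v a3]
    linarith
  have s1 : Ad N y v w ↔ Ad N y w v := ad_symm hN v w
  have s2 : Ad N y u v ↔ Ad N y v u := ad_symm hN u v
  have s3 : Ad N y u w ↔ Ad N y w u := ad_symm hN u w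
  by_cases p : Ad N y w v <;> by_cases q : Ad N y v u <;> by_cases r : Ad N y w u
  · have g1 : g N y w v u = 1 := by simp [g, I, a1, a2, a3, p, r]
    have g2 : g N y v u w = 1 := by simp [g, I, a1, a2, a3, p, q, s1]
    have g3 : g N y u w v = 1 := by simp [g, I, a1, a2, a3, q, r, s2, s3]
    have h1 : h N y w v u = if Bad N y w v u then 1 else 2 := by
      simp only [h, tw, I, a1, a2, a3, p, q, r]
      split_ifs <;> simp_all
    have h2 : h N y v u w = if Bad N y v u w then 1 else 2 := by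
      simp only [h, tw, I, a1, a2, a3, s1, s3, p, q, r]
      split_ifs <;> simp_all
    have h3 : h N y u w v = if Bad N y u w v then 1 else 2 := by
      simp only [h, tw, I, a1, a2, a3, s2, s3, p, q, r]
      split_ifs <;> simp_all
    rw [g1, g2, g3, h1, h2, h3]
    by_cases b1 : Bad N y w v u
    · have b2 : ¬ Bad N y v u w := fun b => bad_excl hN _ _ _ b1 b
      have b3 : ¬ Bad N y u w v := fun b => bad_excl hN _ _ _ b b1
      rw [if_pos b1, if_neg b2, if_neg b3]
      norm_num
    · rw [if_neg b1]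
      by_cases b2 : Bad N y v u w
      · have b3 : ¬ Bad N y u w v := fun b => bad_excl hN _ _ _ b2 b
        rw [if_pos b2, if_neg b3]
        norm_num
      · rw [if_neg b2]
        split_ifs <;> norm_num
  all_goals
    simp only [g, h, tw, I, a1, a2, a3, s1, s2, s3, p, q, r, and_true, and_false,
      or_true, or_false, not_true_eq_false, not_false_eq_true, if_true, if_false]
    norm_num

end

/-- symmetrisation -/
theorem s_t2 : S_T2 := by
  intro V _ μ N hN hμ k y
  have e1 : 5 / 3 * ∑ w, μ w * I (Al N y w) * (∑ v, μ v * I (Al N y v ∧ Ad N y w v)) ^ 2 =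
      ∑ w, ∑ v, ∑ u, 5 / 3 * (μ w * μ v * μ u * g N y w v u) := by
    rw [Finset.mul_sum]
    refine Finset.sum_congr rfl fun w _ => ?_
    rw [sq, Finset.sum_mul_sum, Finset.mul_sum, Finset.mul_sum]
    refine Finset.sum_congr rfl fun v _ => ?_
    rw [Finset.mul_sum, Finset.mul_sum]
    refine Finset.sum_congr rfl fun u _ => ?_
    unfold g
    ring
  have e2 : ∑ w, μ w * I (Al N y w) * ∑ v, ∑ u, μ v * μ u * (tw N y w v u : ℝ) =
      ∑ w, ∑ v, ∑ u, μ w * μ v * μ u * h N y w v u := by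
    refine Finset.sum_congr rfl fun w _ => ?_
    rw [Finset.mul_sum]
    refine Finset.sum_congr rfl fun v _ => ?_
    rw [Finset.mul_sum]
    refine Finset.sum_congr rfl fun u _ => ?_
    unfold h
    ring
  rw [e1, e2]
  have r1 := rot3 (fun w v u => 5 / 3 * (μ w * μ v * μ u * g N y w v u))
  have r2 := rot3 (fun w v u => 5 / 3 * (μ v * μ u * μ w * g N y v u w))
  have q1 := rot3 (fun w v u => μ w * μ v * μ u * h N y w v u)
  have q2 := rot3 (fun w v u => μ v * μ u * μ w * h N y v u w)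
  have main : ∑ w, ∑ v, ∑ u, (5 / 3 * (μ w * μ v * μ u * g N y w v u) +
      5 / 3 * (μ v * μ u * μ w * g N y v u w) + 5 / 3 * (μ u * μ w * μ v * g N y u w v)) ≤
      ∑ w, ∑ v, ∑ u, (μ w * μ v * μ u * h N y w v u + μ v * μ u * μ w * h N y v u w +
        μ u * μ w * μ v * h N y u w v) := by
    refine Finset.sum_le_sum fun w _ => Finset.sum_le_sum fun v _ => Finset.sum_le_sum fun u _ => ?_
    have hp := mul_le_mul_of_nonneg_left (pw (y := y) hN w v u)
      (mul_nonneg (mul_nonneg (hμ w) (hμ v)) (hμ u))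
    calc _ = μ w * μ v * μ u * (5 / 3 * (g N y w v u + g N y v u w + g N y u w v)) := by ring
      _ ≤ μ w * μ v * μ u * (h N y w v u + h N y v u w + h N y u w v) := hp
      _ = _ := by ring
  simp only [Finset.sum_add_distrib] at main
  linarith

end Pool.Agent.Y93.DC3
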